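import Mathlib
import Pool.Agent.helper5.Buss.Main

set_option autoImplicit false

/-!
# Buss's sequence: few prime factors, or gaps of Cramer size

`f (n + 1) = f n * B n`, `f n + B n` is the least prime larger than `f n + 1`. The numbers `B n` are
pairwise coprime. Counting least prime factors, and Mertens' theorem with the weights `log p / p`, show:
growth of `f` pays for composite `B n`; for almost all `n` all prime factors of `B n` are larger than
`n log n / ω(n)`; for infinitely many `n` the number `B n` has at most `k` prime factors or is at least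
`c (log f n) ^ (k + 1)`, `c < (k + 1) ^ (-(k + 1))`.
-/

namespace Pool.Agent.Results.MP_204327_nt.PrimeOrLargeGap

open Finset Filter Topology

/-- The sequences of the problem (their values at `n = 0` play no role). -/
def Buss (f B : ℕ → ℕ) : Prop :=
  f 1 = 1 ∧ ∀ n, 1 ≤ n →
    IsLeast {q : ℕ | q.Prime ∧ f n + 1 < q} (f n + B n) ∧ f (n + 1) = f n * B n

/-- The set of the `n ≥ 1` with `P n` has natural density zero. -/
def DensityZero (P : ℕ → Prop) : Prop :=
  Tendsto (fun N : ℕ => (Set.ncard {n : ℕ | 1 ≤ n ∧ n ≤ N ∧ P n} : ℝ) / N) atTop (𝓝 0)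

theorem densityZero_iff (P : ℕ → Prop) [DecidablePred P] : DensityZero P ↔
    Tendsto (fun N : ℕ => (#{n ∈ Icc 1 N | P n} : ℝ) / N) atTop (𝓝 0) := by
  unfold DensityZero
  have h1 : ∀ N : ℕ, Set.ncard {n : ℕ | 1 ≤ n ∧ n ≤ N ∧ P n} = #{n ∈ Icc 1 N | P n} := by
    intro N
    rw [← Set.ncard_coe_finset]
    congr 1
    ext n
    simp only [Set.mem_ofPred_eq, Finset.coe_filter, Finset.mem_Icc]
    tauto
  simp_rw [h1]

theorem result :
    -- the sequences exist
    (∃ f B : ℕ → ℕ, Buss f B) ∧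
    ∀ f B : ℕ → ℕ, Buss f B →
      -- growth of `f` against the numbers of prime factors
      (∀ N J : ℕ, ∏ j ∈ Icc 1 J,
        (∏ i ∈ range (#{n ∈ Icc 1 N | j ≤ (B n).primeFactorsList.length}), Nat.nth Nat.Prime i) ≤
          f (N + 1)) ∧
      -- the prime factors of almost all `B n` are large
      (∀ ω : ℕ → ℝ, Tendsto ω atTop atTop →
        DensityZero fun n => ∃ p : ℕ, p.Prime ∧ p ∣ B n ∧ (p : ℝ) ≤ n * Real.log n / ω n) ∧
      -- at most `k` prime factors, or a large gap, infinitely often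
      (∀ (k : ℕ) (c : ℝ), c < 1 / ((k : ℝ) + 1) ^ (k + 1) → ∀ n0 : ℕ, ∃ n, n0 ≤ n ∧
        ((B n).primeFactorsList.length ≤ k ∨ c * Real.log (f n) ^ (k + 1) ≤ B n)) ∧
      -- prime or square of a prime, or a large gap, infinitely often
      (∀ c : ℝ, c < 1 → ∀ n0 : ℕ, ∃ n, n0 ≤ n ∧
        ((B n).Prime ∨ (∃ p : ℕ, p.Prime ∧ B n = p ^ 2) ∨ c * Real.log (f n) ^ 2 ≤ B n)) ∧
      -- a large gap infinitely often, or at most `k` prime factors almost always
      (∀ (k : ℕ) (A : ℝ), 1 ≤ k → A < (k : ℝ) + 1 →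
        (∀ n0 : ℕ, ∃ n, n0 ≤ n ∧ Real.log (f n) ^ A < B n) ∨
        DensityZero fun n => k < (B n).primeFactorsList.length) := by
  classical
  refine ⟨Pool.Agent.helper5.Buss.exists_seq, fun f B hfB => ?_⟩
  have h : Pool.Agent.helper5.Buss.Bu f B := Pool.Agent.helper5.Buss.bu_of hfB.1 hfB.2
  refine ⟨h.growth, fun ω hω => ?_, fun k c hc n0 => h.inf_k k hc n0,
    fun c hc n0 => h.inf_sq hc n0, fun k A hk hA => ?_⟩
  · rw [densityZero_iff]
    refine Pool.Agent.helper5.Buss.dens_mono (n0 := 0) (fun n _ hn => ?_) (h.density hω)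
    obtain ⟨p, hp, hpB, hpx⟩ := hn
    refine le_trans ?_ hpx
    exact_mod_cast Nat.minFac_le_of_dvd hp.two_le hpB
  · rw [densityZero_iff]
    exact h.dich hk hA

end Pool.Agent.Results.MP_204327_nt.PrimeOrLargeGap
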